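import Pool.Agent.T9h88.IP.Spec
import Pool.Agent.T9h18.IO.True

/-!
# Several levels: truth of the theories
-/

set_option autoImplicit false

namespace Pool.Agent.T9h18.IP

open Pool.Agent.TH672 (Fm Str upd num digits varStr LogK Pv upd_same upd_ne upd_self)
open Pool.Agent.TH636.BC
open Pool.Agent.T9h6.BC (sz cl str_instx sat_cl)
open Pool.Agent.TH838.J1549 (sat_inst sat_inst3 free_inst Q)
open Pool.Agent.TH197.J1545 (sat_proves code_inj digits_num)
open Pool.Agent.T9h88.IO Pool.Agent.T9h88.IP Pool.Agent.T9h18.IO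

/-! ### the standard model -/

section
variable (P : Fml) (κ b L w₀ : ℕ)

/-- functions of the standard model -/
def qStd3 : Q (Std3 P κ b L w₀) where
  o := (0 : ℕ)
  s := fun x : ℕ => (x + 1 : ℕ)
  a := fun x y : ℕ => (x + y : ℕ)
  m := fun x y : ℕ => (x * y : ℕ)
  zero_iff _ := Iff.rfl
  succ_iff _ _ := Iff.rfl
  add_iff _ _ _ := Iff.rfl
  mul_iff _ _ _ := Iff.rfl
  s_ne x := Nat.succ_ne_zero x
  s_inj x y h := Nat.succ_injective h
  cases x := by
    cases x with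
    | zero => exact .inl rfl
    | succ n => exact .inr ⟨n, rfl⟩
  a_o _ := rfl
  a_s _ _ := rfl
  m_o _ := rfl
  m_s _ _ := rfl

theorem nm_std3 (n : ℕ) : (qStd3 P κ b L w₀).nm n = n := by
  induction n with
  | zero => rfl
  | succ n ih =>
    show (qStd3 P κ b L w₀).s ((qStd3 P κ b L w₀).nm n) = n + 1
    rw [ih]; rfl

theorem sat_robinson3 : ∀ ψ ∈ robinson, ∀ v : ℕ → ℕ, Fm.Sat (Std3 P κ b L w₀) ψ v := by
  simp only [robinson, List.mem_cons, List.not_mem_nil, or_false, forall_eq_or_imp, forall_eq,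
    Fm.sat_all, Fm.sat_ex, Fm.sat_imp, Fm.sat_zero, Fm.sat_succ, Fm.sat_add, Fm.sat_mul, Fm.sat_eq,
    Fm.sat_neg, Fm.sat_or]
  simp only [Std3, upd]
  refine ⟨?_, ?_, ?_, ?_, ?_, ?_, ?_, ?_, ?_, ?_, ?_, ?_, ?_, ?_, ?_⟩
  · intro v; exact ⟨(0 : ℕ), by simp⟩
  · intro v a b; simp; omega
  · intro v a; exact ⟨(a + 1 : ℕ), by simp⟩
  · intro v a b c; simp; omega
  · intro v a b; exact ⟨(a + b : ℕ), by simp⟩
  · intro v a b c d; simp; omega
  · intro v a b; exact ⟨(a * b : ℕ), by simp⟩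
  · intro v a b c d; simp; intro h1 h2; rw [h1, h2]
  · intro v a b; simp; omega
  · intro v a b c; simp; omega
  · intro v a
    rcases Nat.eq_zero_or_pos a with h | h
    · left; simpa using h
    · right; exact ⟨(a - 1 : ℕ), by simp; omega⟩
  · intro v a b; simp
  · intro v a b c d e; simp; omega
  · intro v a b; simp; intro h; rw [h]; simp
  · intro v a b c d e; simp; intro h1 h2 h3; rw [h3, h2, h1]; ring

theorem sat_ExAx3 : ∀ ψ ∈ ExAx, ∀ v : ℕ → ℕ, Fm.Sat (Std3 P κ b L w₀) ψ v := by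
  simp only [ExAx, List.mem_cons, List.not_mem_nil, or_false, forall_eq_or_imp, forall_eq,
    Fm.sat_all, Fm.sat_ex, Fm.sat_op]
  constructor
  · intro v
    refine ⟨(0 : ℕ), ?_⟩
    show dec (upd v 0 0 0) = .nil
    rw [upd_same]; exact dec_zero
  · intro v a b
    refine ⟨tnum (.node (dec a) (dec b)), ?_⟩
    have e0 : ∀ c : ℕ, upd (upd (upd v 0 a) 1 b) 2 c 0 = a := fun c => by
      rw [upd_ne _ _ (by decide), upd_ne _ _ (by decide), upd_same]
    have e1 : ∀ c : ℕ, upd (upd (upd v 0 a) 1 b) 2 c 1 = b := fun c => by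
      rw [upd_ne _ _ (by decide), upd_same]
    show dec (upd (upd (upd v 0 a) 1 b) 2 _ 2) =
      .node (dec (upd (upd (upd v 0 a) 1 b) 2 _ 0)) (dec (upd (upd (upd v 0 a) 1 b) 2 _ 1))
    erw [e0, e1, upd_same]
    exact dec_tnum _

theorem sat_atom3 (a : At) (v : ℕ → ℕ) :
    Fm.Sat (Std3 P κ b L w₀) a.fm v ↔ Tr3 P κ b L w₀ v a := by
  cases a <;> exact Iff.rfl

theorem sat_clause3 {c : Cl} (hc : ClTr3 P κ b L w₀ c) (v : ℕ → ℕ) :
    Fm.Sat (Std3 P κ b L w₀) c.fm v := by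
  refine sat_cl (S := Std3 P κ b L w₀) (fun w => ?_) _ _
  have h : ∀ (l : List At), ((∀ p ∈ l, Tr3 P κ b L w₀ w p) → Tr3 P κ b L w₀ w c.concl) →
      Fm.Sat (Std3 P κ b L w₀) (l.foldr (fun p f => .imp p.fm f) c.concl.fm) w := by
    intro l
    induction l with
    | nil => intro h; exact (sat_atom3 P κ b L w₀ _ _).2 (h (by simp))
    | cons a l ih =>
      intro h
      rw [List.foldr_cons, Fm.sat_imp]
      intro ha
      refine ih fun hl => h ?_
      intro p hp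
      rcases List.mem_cons.1 hp with rfl | hp
      · exact (sat_atom3 P κ b L w₀ _ _).1 ha
      · exact hl p hp
  exact h c.prem (hc w)

/-- formulas of arithmetic have the same truth value in the two structures -/
theorem sat_arith3 : ∀ (φ : Fml), Arith φ → ∀ v : ℕ → ℕ,
    (Fm.Sat NatStr φ v ↔ Fm.Sat (Std3 P κ b L w₀) φ v)
  | .bot, _, _ => Iff.rfl
  | .eq _ _, _, _ => Iff.rfl
  | .zero _, _, _ => Iff.rfl
  | .succ _ _, _, _ => Iff.rfl
  | .add _ _ _, _, _ => Iff.rfl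
  | .mul _ _ _, _, _ => Iff.rfl
  | .op _ _ _ _ _, h, _ => absurd h (by simp [Arith])
  | .imp φ ψ, h, v => by
    have h1 := sat_arith3 φ h.1 v
    have h2 := sat_arith3 ψ h.2 v
    exact ⟨fun g a => h2.1 (g (h1.2 a)), fun g a => h2.2 (g (h1.1 a))⟩
  | .all x φ, h, v => ⟨fun g a => (sat_arith3 φ h (upd v x a)).1 (g a),
      fun g a => (sat_arith3 φ h (upd v x a)).2 (g a)⟩

/-! ### consistency statements -/

variable {P}

theorem sat_off3 (hP : Numerates P) (v : ℕ → ℕ) :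
    Fm.Sat (Std3 P κ b L w₀) (off P) v ↔ ¬ PrRel (v 2) (v 3) (code [Fm.bot]) := by
  have hfn : ∀ x, P.neg.Free x → x = 2 ∨ x = 3 ∨ x = 4 := fun x hx => by
    simp only [Fm.neg, Fm.Free, or_false] at hx
    exact hP.free x hx
  have e : ∀ φ : Fml, (∀ x, φ.Free x → x = 2 ∨ x = 3 ∨ x = 4) →
      (Fm.Sat (Std3 P κ b L w₀) (inst 2 (v 2) (inst 3 (v 3) (inst 4 (code [Fm.bot]) φ))) v ↔
        Fm.Sat (Std3 P κ b L w₀) φ (upd v 4 (code [Fm.bot]))) := by
    intro φ hφ
    rw [sat_inst3 (qStd3 P κ b L w₀) hφ]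
    simp only [nm_std3]
    have : upd (upd v 2 (v 2)) 3 (v 3) = v := by rw [upd_self, upd_self]
    erw [this]
  have e2 : Fm.Sat (Std3 P κ b L w₀) (off P) v ↔
      Fm.Sat (Std3 P κ b L w₀) P.neg (upd v 4 (code [Fm.bot])) := by
    rw [off, sat_inst (qStd3 P κ b L w₀) (by omega) (fun h => by have := hfn 0 h; omega)
      (fun h => by have := hfn 1 h; omega), nm_std3]
  rw [e2]
  constructor
  · intro h hpr
    obtain ⟨k, hk⟩ := hP.pos _ _ _ hpr
    have h1 := sat_proves (S := Std3 P κ b L w₀) (sat_robinson3 P κ b L w₀) hk v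
    rw [e P hP.free] at h1
    exact h h1
  · intro h
    obtain ⟨k, hk⟩ := hP.neg _ _ _ h
    have h1 := sat_proves (S := Std3 P κ b L w₀) (sat_robinson3 P κ b L w₀) hk v
    rwa [e P.neg hfn] at h1

theorem sat_con3 (hP : Numerates P) (Γ : List Fml) (v : ℕ → ℕ) :
    Fm.Sat (Std3 P κ b L w₀) (con P Γ) v ↔ ¬ Proves Γ (v 3) Fm.bot := by
  have h0 : ¬ (off P).Free 0 := fun h => by have := free_off hP h; omega
  have h1 : ¬ (off P).Free 1 := fun h => by have := free_off hP h; omega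
  have e : con P Γ = inst 2 (code Γ) (off P) := rfl
  rw [e, sat_inst (qStd3 P κ b L w₀) (by omega) h0 h1, nm_std3, sat_off3 κ b L w₀ hP]
  have e3 : upd v 2 (code Γ) 2 = code Γ := upd_same ..
  have e4 : upd v 2 (code Γ) 3 = v 3 := upd_ne _ _ (by decide)
  erw [e3, e4, prRel_iff]

theorem sat_conAll3 (hP : Numerates P) (Γ : List Fml) (v : ℕ → ℕ) :
    Fm.Sat (Std3 P κ b L w₀) (conAll P Γ) v ↔ ∀ n, ¬ Proves Γ n Fm.bot := by
  rw [conAll, Fm.sat_all]
  refine forall_congr' fun n => ?_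
  rw [sat_con3 κ b L w₀ hP]
  have e4 : upd v 3 n 3 = n := upd_same ..
  erw [e4]

/-- the axiom `link` -/
theorem sat_link3 {κ : ℕ} (b L w₀ : ℕ) (hP : Numerates P) (hκ : ScriptC κ) (w : ℕ → ℕ) :
    Fm.Sat (Std3 P (4 * κ) b L w₀) (link P) w := by
  rw [link]
  simp only [Fm.sat_all, Fm.sat_imp]
  intro (u : ℕ) (n : ℕ) (x : ℕ) h1 h2 h3
  rw [sat_off3 (4 * κ) b L w₀ hP]
  have e2 : upd (upd (upd w 2 u) 3 n) 5 x 2 = u := by
    rw [upd_ne _ _ (by decide), upd_ne _ _ (by decide), upd_same]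
  have e3 : upd (upd (upd w 2 u) 3 n) 5 x 3 = n := by
    rw [upd_ne _ _ (by decide), upd_same]
  have e5 : upd (upd (upd w 2 u) 3 n) 5 x 5 = x := upd_same ..
  have g1 : (u : ℕ) ≤ n := by
    have h1' : upd (upd (upd w 2 u) 3 n) 5 x 2 ≤ upd (upd (upd w 2 u) 3 n) 5 x 3 := h1
    rwa [e2, e3] at h1'
  have g2 : 4 * κ * (n : ℕ) ^ 2 ≤ x := by
    have h2' : 4 * κ * (upd (upd (upd w 2 u) 3 n) 5 x 3) ^ 2 ≤
      upd (upd (upd w 2 u) 3 n) 5 x 5 := h2
    rwa [e3, e5] at h2'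
  have g3 : NoRef u x := by
    have h3' : NoRef (upd (upd (upd w 2 u) 3 n) 5 x 2) (upd (upd (upd w 2 u) 3 n) 5 x 5) := h3
    rwa [e2, e5] at h3'
  erw [e2, e3]
  rintro ⟨Γ, φ, a1, a2, ⟨π, b1, b2⟩⟩
  have e : φ = Fm.bot := by simpa using (code_inj a2).symm
  subst e
  obtain ⟨l, hl, hl2⟩ := hκ Γ π b1
  refine hl2 (g3 Γ a1.symm l (hl.trans (le_trans ?_ g2)))
  have c1 := len_le_code Γ
  have c2 : (strs (Fm.bot :: π)).length + Γ.length ≤ 2 * n := by
    rw [← a1] at c1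
    omega
  calc κ * ((strs (Fm.bot :: π)).length + Γ.length) ^ 2 ≤ κ * (2 * n) ^ 2 :=
        Nat.mul_le_mul_left _ (Nat.pow_le_pow_left c2 2)
    _ = 4 * κ * n ^ 2 := by ring

end

/-! ### the new axioms -/

theorem tw_mono_left {i j a : ℕ} (h : i ≤ j) : tw i a ≤ tw j a := by
  induction h with
  | refl => exact le_refl _
  | step _ ih => exact ih.trans (tw_lt_succ _ _).le

theorem tw_strict_left (a : ℕ) : StrictMono fun i => tw i a :=
  strictMono_nat_of_lt_succ fun i => tw_lt_succ i a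

/-- the axiom `Ax3` -/
theorem sat_Ax3 (P : Fml) (κ b L w₀ : ℕ) (w : ℕ → ℕ) : Fm.Sat (Std3 P κ b L w₀) Ax3 w := by
  rw [Ax3]
  simp only [Fm.sat_all, Fm.sat_imp]
  intro (v : ℕ) (l : ℕ) (z : ℕ) (t : ℕ) (r : ℕ) (s : ℕ) (y : ℕ) h1 h2 h3 h4 h5
  set W : ℕ → ℕ := upd (upd (upd (upd (upd (upd (upd w 27 v) 26 l) 29 z) 2 t) 6 r) 7 s) 8 y
    with hW
  have w27 : W 27 = v := by
    rw [hW]
    simp [upd]
  have w26 : W 26 = l := by
    rw [hW]
    simp [upd]
  have w29 : W 29 = z := by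
    rw [hW]
    simp [upd]
  have w2 : W 2 = t := by
    rw [hW]
    simp [upd]
  have w6 : W 6 = r := by
    rw [hW]
    simp [upd]
  have w7 : W 7 = s := by
    rw [hW]
    simp [upd]
  have w8 : W 8 = y := by
    rw [hW]
    simp [upd]
  have g1 : t = fT P z := by
    have : W 2 = fT P (W 29) := h1
    rwa [w2, w29] at this
  have g2 : ∃ j, r = tw j (b + l + 1) ∧ s = tw (j + 1) (b + l + 1) := by
    have : ∃ j, W 6 = tw j (b + W 26 + 1) ∧ W 7 = tw (j + 1) (b + W 26 + 1) := h2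
    rwa [w6, w7, w26] at this
  have g3 : ∃ j, s = tw j (b + l + 1) ∧ y = tw j (b + l) := by
    have : ∃ j, W 7 = tw j (b + W 26 + 1) ∧ W 8 = tw j (b + W 26) := h3
    rwa [w7, w8, w26] at this
  have g4 : NoRef t r ∨ r < t := by
    have : NoRef (W 2) (W 6) ∨ W 6 < W 2 := h4
    rwa [w2, w6] at this
  have g5 : ¬ Trust P b v l z := by
    have : ¬ Trust P b (W 27) (W 26) (W 29) := h5
    rwa [w27, w26, w29] at this
  have goal : NoRef v y := by
    unfold Trust at g5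
    push Not at g5
    obtain ⟨j0, k1, k2, k3⟩ := g5
    obtain ⟨j, rfl, hs⟩ := g2
    obtain ⟨j', hs', rfl⟩ := g3
    rw [hs] at hs'
    have e1 : j + 1 = j' := (tw_strict_left (b + l + 1)).injective hs'
    rw [← e1]
    rw [← g1] at k1 k3
    have lt : tw j (b + l + 1) < tw j0 (b + l + 1) := by
      rcases g4 with g4 | g4
      · by_contra hc
        push Not at hc
        exact k3 (noRef_mono hc g4)
      · exact g4.trans_le k1
    have lt2 : j < j0 := (tw_strict_left (b + l + 1)).lt_iff_lt.1 lt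
    exact noRef_mono (tw_mono_left lt2) k2
  have : NoRef (W 27) (W 8) := by rwa [w27, w8]
  exact this

theorem I3_large (P : Fml) (κ b L w₀ : ℕ) {i : ℕ} (hi : 47 ≤ i) (x y z t : ℕ) :
    I3 P κ b L w₀ i x y z t = I P [] κ i x y z t := by
  unfold I3
  split <;> first | omega | rfl

theorem I_iK (P : Fml) (κ c x y z t : ℕ) : I P [] κ (iK c) x y z t ↔ x = c := by
  have e : iK c = 101 + 2 * c := rfl
  have h1 : I P [] κ (101 + 2 * c) x y z t ↔
      (if (101 + 2 * c) % 2 = 0 then y = app x (digits ((101 + 2 * c - 100) / 2))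
        else x = (101 + 2 * c - 101) / 2) := by
    generalize hg : 101 + 2 * c = g
    unfold I
    split <;> first | omega | rfl
  rw [e, h1, if_neg (by omega)]
  have : (101 + 2 * c - 101) / 2 = c := by omega
  rw [this]

/-- truth of `Trust` axioms -/
theorem sat_ax (P : Fml) (κ b L w₀ : ℕ) (e : Ent) (w : ℕ → ℕ) :
    Fm.Sat (Std3 P κ b L w₀) e.ax w ↔ Trust P b e.v e.i e.z := by
  have f0 : ∀ x < 26, ¬ θ1.Free x := by
    intro x hx h
    have : x = 27 ∨ x = 26 ∨ x = 29 ∨ x = 29 := h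
    omega
  have f1 : ∀ x < 2, ∀ n, ¬ (inst 26 n θ1).Free x := fun x hx n h =>
    f0 x (by omega) (free_inst h).2.2
  have f2 : ∀ x < 2, ∀ n k, ¬ (inst 27 k (inst 26 n θ1)).Free x := fun x hx n k h =>
    f1 x hx n (free_inst h).2.2
  have f3 : ∀ x < 2, ∀ n k m, ¬ (inst 28 m (inst 27 k (inst 26 n θ1))).Free x :=
    fun x hx n k m h => f2 x hx n k (free_inst h).2.2
  rw [Ent.ax, tr, sat_inst (qStd3 P κ b L w₀) (by omega) (f3 0 (by omega) _ _ _)
      (f3 1 (by omega) _ _ _), nm_std3,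
    sat_inst (qStd3 P κ b L w₀) (by omega) (f2 0 (by omega) _ _) (f2 1 (by omega) _ _), nm_std3,
    sat_inst (qStd3 P κ b L w₀) (by omega) (f1 0 (by omega) _) (f1 1 (by omega) _), nm_std3,
    sat_inst (qStd3 P κ b L w₀) (by omega) (f0 0 (by omega)) (f0 1 (by omega)), nm_std3]
  set W : ℕ → ℕ := upd (upd (upd (upd w 29 e.z) 28 e.m) 27 e.v) 26 e.i with hW
  have w27 : W 27 = e.v := by
    rw [hW]
    simp [upd]
  have w26 : W 26 = e.i := by
    rw [hW]
    simp [upd]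
  have w29 : W 29 = e.z := by
    rw [hW]
    simp [upd]
  have : Fm.Sat (Std3 P κ b L w₀) θ1 W ↔ Trust P b (W 27) (W 26) (W 29) := Iff.rfl
  rw [w27, w26, w29] at this
  exact this

theorem strs_append (Γ Δ : List Fml) : strs (Γ ++ Δ) = strs Γ ++ strs Δ := by
  induction Γ with
  | nil => rfl
  | cons φ Γ ih => rw [List.cons_append, TH197.J1545.strs_cons, ih, TH197.J1545.strs_cons, List.append_assoc]

theorem code_UU (A₀ : List Fml) (P : Fml) (κ b L l : ℕ) (ρ : List Ent) :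
    code (UU A₀ P κ b L l ρ) = gd P L (w0 A₀ P κ b L) l ρ := by
  rw [gd, w0]
  have h : digits (code (base A₀ P κ b L)) = strs (base A₀ P κ b L) := digits_num _
  rw [h, ← strs_append, UU, code]
  simp

theorem w0_eq (A₀ : List Fml) (P : Fml) (κ b L : ℕ) :
    w0 A₀ P κ b L = fA (z0 A₀ P κ b L) := by
  have h : digits (z0 A₀ P κ b L) = strs (γ0 :: base' A₀ P κ b L) := digits_num _
  rw [fA, h, w0, code, base, TH197.J1545.strs_cons, γγ, str_inst', TH197.J1545.strs_cons]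
  simp only [List.append_assoc]

/-- the axiom about the code of the base theory -/
theorem sat_γγ (A₀ : List Fml) (P : Fml) (κ κ' b L : ℕ) (w : ℕ → ℕ) :
    Fm.Sat (Std3 P κ b L (w0 A₀ P κ' b L)) (γγ A₀ P κ' b L) w := by
  have f : ∀ x < 2, ¬ γ0.Free x := by
    intro x hx h
    have : x ≠ 2 ∧ ((x = 29 ∨ x = 2 ∨ x = 2 ∨ x = 2) ∨ (x = 2 ∨ x = 2 ∨ x = 2 ∨ x = 2)) := h
    omega
  rw [γγ, sat_inst (qStd3 P κ b L _) (by omega) (f 0 (by omega)) (f 1 (by omega)), nm_std3, γ0]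
  simp only [Fm.sat_all, Fm.sat_imp]
  intro (a : ℕ) h1
  have e1 : upd (upd w 29 (z0 A₀ P κ' b L)) 2 a 29 = z0 A₀ P κ' b L := by
    simp [upd]
  have e2 : upd (upd w 29 (z0 A₀ P κ' b L)) 2 a 2 = a := upd_same ..
  have g1 : a = fA (z0 A₀ P κ' b L) := by
    have : upd (upd w 29 (z0 A₀ P κ' b L)) 2 a 2 = fA (upd (upd w 29 (z0 A₀ P κ' b L)) 2 a 29) := h1
    rwa [e1, e2] at this
  have : upd (upd w 29 (z0 A₀ P κ' b L)) 2 a 2 = w0 A₀ P κ' b L := by
    rw [e2, g1, w0_eq]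
  exact this

/-- the base theory -/
theorem sat_base (hV : V3) {A₀ : List Fml} {P : Fml} {κ : ℕ} (b L : ℕ) (hA : TrueSent A₀)
    (hP : Numerates P) (hκ : ScriptC κ) : ∀ ψ ∈ base A₀ P (4 * κ) b L, ∀ w : ℕ → ℕ,
    Fm.Sat (Std3 P (4 * κ) b L (w0 A₀ P (4 * κ) b L)) ψ w := by
  intro ψ hψ w
  unfold base base' at hψ
  simp only [List.mem_append, List.mem_cons, List.mem_map] at hψ
  rcases hψ with hψ | hψ | (hψ | hψ) | hψ | hψ | ⟨c, hc, hψ⟩
  · rw [hψ]
    exact sat_γγ A₀ P (4 * κ) (4 * κ) b L w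
  · exact (sat_arith3 P (4 * κ) b L _ ψ (hA ψ hψ).2.1 w).1 ((hA ψ hψ).2.2 w)
  · exact sat_robinson3 P (4 * κ) b L _ ψ hψ w
  · exact sat_ExAx3 P (4 * κ) b L _ ψ hψ w
  · rw [hψ]
    exact sat_link3 b L _ hP hκ w
  · rw [hψ]
    exact sat_Ax3 P (4 * κ) b L _ w
  · rw [← hψ]
    exact sat_clause3 P (4 * κ) b L _ (hV P (4 * κ) b L _ c hc) w

/-- (W2) -/
theorem w2 : W2 := by
  intro hV A₀ P κ b L l ρ hA hP hκ hl hρ
  set w₀ := w0 A₀ P (4 * κ) b L with hw₀
  have key : ∀ (d l : ℕ) (ρ : List Ent), L - l = d → l ≤ L →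
      (∀ e ∈ ρ, Trust P b e.v e.i e.z) →
      ∀ ψ ∈ UU A₀ P (4 * κ) b L l ρ, ∀ w : ℕ → ℕ, Fm.Sat (Std3 P (4 * κ) b L w₀) ψ w := by
    intro d
    induction d using Nat.strong_induction_on with
    | _ d ih =>
      intro l ρ hd hl hρ ψ hψ w
      unfold UU at hψ
      simp only [List.mem_append, List.mem_cons, List.mem_map] at hψ
      rcases hψ with ⟨e, he, rfl⟩ | hψ | hψ
      · exact (sat_ax P (4 * κ) b L w₀ e w).2 (hρ e he)
      · rw [hψ]
        have f : ∀ x < 2, ¬ (JJ P L).Free x := by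
          intro x hx h
          have h' : x ≠ 24 ∧ x ≠ 25 ∧ x ≠ 2 ∧ ((x = 24 ∨ x = 24 ∨ x = 24 ∨ x = 24) ∨
            (x = 26 ∨ x = 25 ∨ x = 25 ∨ x = 25) ∨ (x = 25 ∨ x = 24 ∨ x = 24 ∨ x = 24) ∨
            (x = 25 ∨ x = 2 ∨ x = 2 ∨ x = 2) ∨ (x ≠ 3 ∧ (off P).Free x)) := h
          obtain ⟨_, _, h2, h3⟩ := h'
          have h4 : (off P).Free x := by
            rcases h3 with h3 | h3 | h3 | h3 | h3
            · omega
            · omega
            · omega
            · omega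
            · exact h3.2
          have := free_off hP h4
          omega
        rw [Jl, sat_inst (qStd3 P (4 * κ) b L w₀) (by omega) (f 0 (by omega)) (f 1 (by omega)),
          nm_std3, JJ]
        simp only [Fm.sat_all, Fm.sat_imp]
        intro (x24 : ℕ) (l' : ℕ) (u : ℕ) h1 h2 h3 h4 (n : ℕ)
        rw [sat_off3 (4 * κ) b L w₀ hP]
        set W : ℕ → ℕ := upd (upd (upd (upd w 26 l) 24 x24) 25 l') 2 u with hW
        have w26 : W 26 = l := by
          rw [hW]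
          simp [upd]
        have w24 : W 24 = x24 := by
          rw [hW]
          simp [upd]
        have w25 : W 25 = l' := by
          rw [hW]
          simp [upd]
        have w2 : W 2 = u := by
          rw [hW]
          simp [upd]
        have g1 : x24 = L := by
          have : I3 P (4 * κ) b L w₀ (iK L) (W 24) (W 24) (W 24) (W 24) := h1
          rw [I3_large P (4 * κ) b L w₀ (by unfold iK; omega), I_iK, w24] at this
          exact this
        have g2 : l < l' := by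
          have : W 26 < W 25 := h2
          rwa [w26, w25] at this
        have g3 : l' ≤ x24 := by
          have : W 25 ≤ W 24 := h3
          rwa [w25, w24] at this
        have g4 : ∃ ρ' : List Ent, (∀ e ∈ ρ', Trust P b e.v e.i e.z) ∧ u = gd P L w₀ l' ρ' := by
          have : ∃ ρ' : List Ent, (∀ e ∈ ρ', Trust P b e.v e.i e.z) ∧
            W 2 = gd P L w₀ (W 25) ρ' := h4
          rwa [w2, w25] at this
        obtain ⟨ρ', hρ', hu⟩ := g4
        rw [hw₀, ← code_UU] at hu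
        have e2 : upd W 3 n 2 = code (UU A₀ P (4 * κ) b L l' ρ') := by
          rw [upd_ne _ _ (by decide), w2, hu]
        have e3 : upd W 3 n 3 = n := upd_same ..
        erw [e2, e3, prRel_iff]
        intro hpr
        exact sat_proves (S := Std3 P (4 * κ) b L w₀)
          (ih (L - l') (by omega) l' ρ' rfl (by omega) hρ') hpr w
      · exact sat_base hV b L hA hP hκ ψ hψ w
  have hU := key (L - l) l ρ rfl hl hρ
  refine ⟨hU, fun k hk => ?_⟩
  refine sat_proves (S := Std3 P (4 * κ) b L w₀) (fun φ hφ w => ?_) hk (fun _ => (0 : ℕ))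
  rcases List.mem_cons.1 hφ with rfl | hφ
  · exact (sat_conAll3 (4 * κ) b L w₀ hP _ w).2 fun n hn =>
      sat_proves (S := Std3 P (4 * κ) b L w₀) hU hn (fun _ => (0 : ℕ))
  · exact hU φ hφ w

end Pool.Agent.T9h18.IP
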